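import Pool.Agent.W295.PR.Stm

/-!
# Project PR: polynomial maps form a group (Lazard, Leibman)
-/

set_option autoImplicit false

namespace Pool.Agent.W696.PR.PG

open Pool.Agent.W295.PR

theorem main : S_PG := by
  intro R _ G _ RF GF hF n
  induction n with
  | zero =>
    exact ⟨fun l f hf x => hF.anti l (hf x), fun l f g hf hg x => (GF l).mul_mem (hf x) (hg x),
      fun l f hf x => (GF l).inv_mem (hf x),
      fun l m f g hf hg x => hF.comm l m _ (hf x) _ (hg x), fun l f c hf x => hf (x + c)⟩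
  | succ n ih =>
    obtain ⟨hmono, hmul, hinv, hcomm, hshift⟩ := ih
    have mono' : ∀ (a b : ℕ) (f : R → G), a ≤ b → IsPoly RF GF n b f → IsPoly RF GF n a f := by
      intro a b f hab hf
      induction b, hab using Nat.le_induction with
      | base => exact hf
      | succ b _ ihb => exact ihb (hmono b f hf)
    have conj : ∀ (l m : ℕ) (f g : R → G), IsPoly RF GF n l f → IsPoly RF GF n m g →
        IsPoly RF GF n m (f * g * f⁻¹) := by
      intro l m f g hf hg
      have h1 := hmul m _ _ (mono' m (l + m) _ (Nat.le_add_left m l) (hcomm l m f g hf hg)) hg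
      have h2 : f * g * f⁻¹ * g⁻¹ * g = f * g * f⁻¹ := by group
      rwa [h2] at h1
    refine ⟨?_, ?_, ?_, ?_, ?_⟩
    · intro l f hf
      refine ⟨hmono l f hf.1, fun j hj h hh => ?_⟩
      exact mono' (l + j) (l + 1 + j) _ (by omega) (hf.2 j hj h hh)
    · intro l f g hf hg
      refine ⟨hmul l f g hf.1 hg.1, fun j hj h hh => ?_⟩
      have e : dd h (f * g) = dd h f * (f * dd h g * f⁻¹) := by
        funext x
        simp only [dd, Pi.mul_apply, Pi.inv_apply]
        group
      rw [e]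
      exact hmul _ _ _ (hf.2 j hj h hh) (conj l _ _ _ hf.1 (hg.2 j hj h hh))
    · intro l f hf
      refine ⟨hinv l f hf.1, fun j hj h hh => ?_⟩
      have e : dd h f⁻¹ = f⁻¹ * (dd h f)⁻¹ * (f⁻¹)⁻¹ := by
        funext x
        simp only [dd, Pi.mul_apply, Pi.inv_apply]
        group
      rw [e]
      exact conj l _ _ _ (hinv l f hf.1) (hinv _ _ (hf.2 j hj h hh))
    · intro l m f g hf hg
      have hw := hcomm l m f g hf.1 hg.1
      refine ⟨hw, fun j hj h hh => ?_⟩
      have hk := hf.2 j hj h hh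
      have hk' := hg.2 j hj h hh
      set k := dd h f with hkdef
      set k' := dd h g with hkdef'
      set w := f * g * f⁻¹ * g⁻¹ with hwdef
      have e : dd h w = (k * (f * k' * f⁻¹ * k'⁻¹) * k⁻¹) * (k * k' * k⁻¹ * k'⁻¹) *
          (k' * (k * w * k⁻¹ * w⁻¹) * k'⁻¹) *
          ((k' * w) * (k * g * k⁻¹ * g⁻¹) * (k' * w)⁻¹) * (k' * w * k'⁻¹ * w⁻¹) := by
        funext x
        simp only [hkdef, hkdef', hwdef, dd, Pi.mul_apply, Pi.inv_apply]
        group
      rw [e]
      have t1 : IsPoly RF GF n (l + m + j) (k * (f * k' * f⁻¹ * k'⁻¹) * k⁻¹) :=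
        conj _ _ _ _ hk (mono' _ (l + (m + j)) _ (by omega) (hcomm _ _ _ _ hf.1 hk'))
      have t2 : IsPoly RF GF n (l + m + j) (k * k' * k⁻¹ * k'⁻¹) :=
        mono' _ (l + j + (m + j)) _ (by omega) (hcomm _ _ _ _ hk hk')
      have t3 : IsPoly RF GF n (l + m + j) (k' * (k * w * k⁻¹ * w⁻¹) * k'⁻¹) :=
        conj _ _ _ _ hk' (mono' _ (l + j + (l + m)) _ (by omega) (hcomm _ _ _ _ hk hw))
      have t4 : IsPoly RF GF n (l + m + j) ((k' * w) * (k * g * k⁻¹ * g⁻¹) * (k' * w)⁻¹) :=
        conj 0 _ _ _ (hmul 0 _ _ (mono' 0 _ _ (Nat.zero_le _) hk')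
          (mono' 0 _ _ (Nat.zero_le _) hw))
          (mono' _ (l + j + m) _ (by omega) (hcomm _ _ _ _ hk hg.1))
      have t5 : IsPoly RF GF n (l + m + j) (k' * w * k'⁻¹ * w⁻¹) :=
        mono' _ (m + j + (l + m)) _ (by omega) (hcomm _ _ _ _ hk' hw)
      exact hmul _ _ _ (hmul _ _ _ (hmul _ _ _ (hmul _ _ _ t1 t2) t3) t4) t5
    · intro l f c hf
      refine ⟨hshift l f c hf.1, fun j hj h hh => ?_⟩
      have e : dd h (fun x => f (x + c)) = fun x => dd h f (x + c) := by
        funext x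
        simp only [dd]
        rw [add_right_comm]
      rw [e]
      exact hshift _ _ c (hf.2 j hj h hh)

end Pool.Agent.W696.PR.PG
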